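import Pool.Agent.H70.TIE.Stmts

/-! Module FIX of project TIE (helper55): the exceptional conductor does not divide a fixed integer. -/

set_option autoImplicit false

namespace TIE
open Finset Filter Topology MTA

/-- a positive lower bound for `|L(1,χ)|`, one modulus -/
private theorem fix_one (r : ℕ) : ∃ δ : ℝ, 0 < δ ∧ ∀ [NeZero r] (χ : DirichletCharacter ℂ r), χ ≠ 1 →
    δ ≤ ‖χ.LFunction 1‖ := by
  classical
  by_cases hr : r = 0
  · exact ⟨1, one_pos, fun {h} => (h.out hr).elim⟩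
  · have : NeZero r := ⟨hr⟩
    let f : DirichletCharacter ℂ r → ℝ := fun χ => if χ = 1 then 1 else ‖χ.LFunction 1‖
    obtain ⟨χ0, h0⟩ := Finite.exists_min f
    refine ⟨f χ0, ?_, fun χ hχ => ?_⟩
    · by_cases h : χ0 = 1
      · simp only [f, if_pos h]
        exact one_pos
      · simp only [f, if_neg h]
        exact norm_pos_iff.2 (DirichletCharacter.LFunction_apply_one_ne_zero h)
    · have h := h0 χ
      simp only [f, if_neg hχ] at h ⊢
      exact h

/-- a positive lower bound for `|L(1,χ)|`, all moduli `≤ n` -/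
private theorem fix_all (n : ℕ) : ∃ δ : ℝ, 0 < δ ∧ ∀ r : ℕ, r ≤ n → ∀ [NeZero r]
    (χ : DirichletCharacter ℂ r), χ ≠ 1 → δ ≤ ‖χ.LFunction 1‖ := by
  induction n with
  | zero =>
    exact ⟨1, one_pos, fun r hr h => (h.out (by omega)).elim⟩
  | succ n ih =>
    obtain ⟨d1, h1, h1'⟩ := ih
    obtain ⟨d2, h2, h2'⟩ := fix_one (n + 1)
    refine ⟨min d1 d2, lt_min h1 h2, fun r hr h χ hχ => ?_⟩
    rcases Nat.lt_or_ge n r with hlt | hle
    · have hrn : r = n + 1 := by omega
      subst hrn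
      exact (min_le_right _ _).trans (h2' χ hχ)
    · exact (min_le_left _ _).trans (h1' r hle χ hχ)

theorem FIX : S_FIX := by
  intro B W hW
  obtain ⟨δ, hδ, hW'⟩ := fix_all W
  have ht : Tendsto (fun x : ℝ => (Real.log x) ^ (-(1 / 8) : ℝ)) atTop (𝓝 0) :=
    (tendsto_rpow_neg_atTop (by norm_num : (0 : ℝ) < 1 / 8)).comp Real.tendsto_log_atTop
  obtain ⟨x0, hx0⟩ := eventually_atTop.1 (ht.eventually (gt_mem_nhds hδ))
  refine ⟨x0, fun x hx r0 hb hd => ?_⟩
  obtain ⟨hne, _, χ, _, hχ, _, hL⟩ := hb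
  have h1 := hW' r0 (Nat.le_of_dvd (by omega) hd) χ hχ
  have h2 := hx0 x hx
  linarith

end TIE
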